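import Pool.Agent.H78.STN.Stmts

/-!
# Board `stn`, row NRC: the recurrence
-/

set_option autoImplicit false

open Polynomial

namespace Pool.STN

private lemma nrc_pq : Pq = (X - 6) ^ 3 * (X - 8) ^ 2 * (X - 9) := by
  unfold Pq
  simp only [map_ofNat]

private lemma nrc_der : derivative Pq * ((X - 6) * (X - 8) * (X - 9)) =
    Pq * (6 * X ^ 2 - 95 * X + 372) := by
  rw [nrc_pq]
  simp only [derivative_mul, derivative_pow, derivative_sub, derivative_X, derivative_ofNat,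
    map_natCast]
  push_cast
  ring

private lemma nrc_pow (n : ℕ) : derivative (Pq ^ n) * ((X - 6) * (X - 8) * (X - 9)) =
    (n : ℚ[X]) * Pq ^ n * (6 * X ^ 2 - 95 * X + 372) := by
  cases n with
  | zero => simp
  | succ m =>
    rw [derivative_pow, map_natCast, Nat.add_sub_cancel]
    linear_combination ((m + 1 : ℕ) : ℚ[X]) * Pq ^ m * nrc_der

private lemma nrc_R : derivative ((X - 6) * (X - 8) * (X - 9) : ℚ[X]) = 3 * X ^ 2 - 46 * X + 174 := by
  simp only [derivative_mul, derivative_sub, derivative_X, derivative_ofNat]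
  ring

private lemma nrc_id (n : ℕ) (s : ℤ) :
    X * derivative (Pq ^ n * ((X - 6) * (X - 8) * (X - 9))) +
      C (s : ℚ) * (Pq ^ n * ((X - 6) * (X - 8) * (X - 9))) =
    ((C (-432 * (s : ℚ)) * (X ^ 0 * Pq ^ n) + C (372 * (n : ℚ) + 174 + 174 * s) * (X ^ 1 * Pq ^ n)) +
      C (-95 * (n : ℚ) - 46 - 23 * s) * (X ^ 2 * Pq ^ n)) +
      C (6 * (n : ℚ) + 3 + s) * (X ^ 3 * Pq ^ n) := by
  rw [derivative_mul, nrc_R]
  simp only [map_add, map_sub, map_mul, map_neg, map_ofNat, map_natCast, map_intCast]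
  linear_combination X * nrc_pow n

theorem NRC_thm (h1 : NADStmt) (h2 : NLNStmt) : NRCStmt := by
  intro n s
  refine ⟨-432 * (s : ℚ), 372 * (n : ℚ) + 174 + 174 * s, -95 * (n : ℚ) - 46 - 23 * s, ?_⟩
  intro u v
  have h := h2 u v (Pq ^ n * ((X - 6) * (X - 8) * (X - 9))) s
  rw [nrc_id, h1.1, h1.1, h1.1, h1.2.1, h1.2.1, h1.2.1, h1.2.1, h1.2.2, h1.2.2, h1.2.2, h1.2.2] at h
  have e0 : s - 1 + ((0 : ℕ) : ℤ) = s - 1 := by push_cast; ring
  have e1 : s - 1 + ((1 : ℕ) : ℤ) = s := by push_cast; ring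
  have e2 : s - 1 + ((2 : ℕ) : ℤ) = s + 1 := by push_cast; ring
  have e3 : s - 1 + ((3 : ℕ) : ℤ) = s + 2 := by push_cast; ring
  rw [e0, e1, e2, e3] at h
  rw [h]
  simp

end Pool.STN
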